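import Pool.Agent.helper36.MP.SpecC

set_option autoImplicit false

open Complex Metric Set Filter Topology MeasureTheory

noncomputable section

namespace MPS

/-- the domain of an extension -/
def ENA_D (y e t : ℝ) : Set ℂ := HP 0 ∪ {w | |w.im - y| < e ∧ w.re < t + e}

lemma ENA_strip_open (y e u : ℝ) : IsOpen {w : ℂ | |w.im - y| < e ∧ w.re < u} := by
  refine IsOpen.inter ?_ ?_
  · exact isOpen_lt ((Complex.continuous_im.sub continuous_const).abs) continuous_const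
  · exact isOpen_lt Complex.continuous_re continuous_const

lemma ENA_strip_convex (y e u : ℝ) : Convex ℝ {w : ℂ | |w.im - y| < e ∧ w.re < u} := by
  intro a ha b hb p q hp hq hpq
  simp only [mem_ofPred_eq, abs_lt] at ha hb ⊢
  have h1 : (p • a + q • b).im = p * a.im + q * b.im := by simp
  have h2 : (p • a + q • b).re = p * a.re + q * b.re := by simp
  rw [h1, h2]
  obtain ⟨⟨ha1, ha2⟩, ha3⟩ := ha
  obtain ⟨⟨hb1, hb2⟩, hb3⟩ := hb
  have hp' : p = 1 - q := by linarith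
  subst hp'
  rcases hq.eq_or_lt with h | h
  · subst h
    simp
    exact ⟨⟨by linarith, by linarith⟩, ha3⟩
  rcases hp.eq_or_lt with h' | h'
  · have : q = 1 := by linarith
    subst this
    simp
    exact ⟨⟨by linarith, by linarith⟩, hb3⟩
  refine ⟨⟨?_, ?_⟩, ?_⟩
  · nlinarith
  · nlinarith
  · nlinarith

lemma ENA_D_open (y e t : ℝ) : IsOpen (ENA_D y e t) :=
  (isOpen_lt Complex.continuous_re continuous_const).union (ENA_strip_open y e (t + e))

lemma ENA_D_left {y e t : ℝ} {w : ℂ} (hw : w ∈ ENA_D y e t) {s : ℝ} (hs : 0 ≤ s) :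
    w - s ∈ ENA_D y e t := by
  rcases hw with hw | hw
  · left
    change (w - s).re < -0
    have : w.re < -0 := hw
    simp at this ⊢
    linarith
  · right
    refine ⟨by simpa using hw.1, ?_⟩
    have := hw.2
    simp
    linarith

lemma ENA_mono {k : ℕ} [NeZero k] {b g : ZMod k → ℂ} {χ : ℂ → ℂ} {Ω Ω' : Set ℂ}
    (h : IsNat b g χ Ω) (hs : Ω' ⊆ Ω) : IsNat b g χ Ω' :=
  ⟨h.diff.mono hs, fun w hw => h.av w (hs hw), fun w hw => h.eq w (hs hw)⟩

lemma ENA_agree {ψ χ₁ χ₂ : ℂ → ℂ} {y e₁ e₂ t₁ t₂ : ℝ}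
    (h1 : DifferentiableOn ℂ χ₁ (ENA_D y e₁ t₁)) (h2 : DifferentiableOn ℂ χ₂ (ENA_D y e₂ t₂))
    (e1 : EqOn χ₁ (hat ψ) (HP 0)) (e2 : EqOn χ₂ (hat ψ) (HP 0)) {w : ℂ}
    (hw1 : w ∈ ENA_D y e₁ t₁) (hw2 : w ∈ ENA_D y e₂ t₂) : χ₁ w = χ₂ w := by
  by_cases hw : w ∈ HP 0
  · rw [e1 hw, e2 hw]
  rcases hw1 with hw1 | hw1
  · exact absurd hw1 hw
  rcases hw2 with hw2 | hw2
  · exact absurd hw2 hw
  have hre : 0 ≤ w.re := by
    have : ¬ (w.re < -0) := hw
    simpa using this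
  set U : Set ℂ := {w : ℂ | |w.im - y| < min e₁ e₂ ∧ w.re < min (t₁ + e₁) (t₂ + e₂)} with hU
  have hUo : IsOpen U := ENA_strip_open y _ _
  have hUc : Convex ℝ U := ENA_strip_convex y _ _
  have hwU : w ∈ U := ⟨lt_min hw1.1 hw2.1, lt_min hw1.2 hw2.2⟩
  have hU1 : U ⊆ ENA_D y e₁ t₁ := fun z hz =>
    Or.inr ⟨hz.1.trans_le (min_le_left _ _), hz.2.trans_le (min_le_left _ _)⟩
  have hU2 : U ⊆ ENA_D y e₂ t₂ := fun z hz =>
    Or.inr ⟨hz.1.trans_le (min_le_right _ _), hz.2.trans_le (min_le_right _ _)⟩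
  have a1 : AnalyticOnNhd ℂ χ₁ U := (h1.mono hU1).analyticOnNhd hUo
  have a2 : AnalyticOnNhd ℂ χ₂ U := (h2.mono hU2).analyticOnNhd hUo
  set z₀ : ℂ := w - ((w.re + 1 : ℝ) : ℂ) with hz₀
  have hz₀re : z₀.re = -1 := by simp [hz₀]
  have hz₀im : z₀.im = w.im := by simp [hz₀]
  have hz₀U : z₀ ∈ U := by
    refine ⟨by rw [hz₀im]; exact hwU.1, ?_⟩
    rw [hz₀re]
    have := hwU.2
    linarith
  have hev : χ₁ =ᶠ[𝓝 z₀] χ₂ := by
    have hHP : HP 0 ∈ 𝓝 z₀ := by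
      refine (isOpen_lt Complex.continuous_re continuous_const).mem_nhds ?_
      change z₀.re < -0
      rw [hz₀re]; norm_num
    filter_upwards [hHP] with z hz
    rw [e1 hz, e2 hz]
  exact a1.eqOn_of_preconnected_of_eventuallyEq a2 hUc.isPreconnected hz₀U hev hwU

theorem ENA (hNH : NH_stmt) : ENA_stmt := by
  intro k _ b g i ψ d y hPN hd hS
  have hnat : IsNat b g (hat ψ) (HP 0) := by
    have h := (hNH k b g i ψ 1 hPN).1
    have e : (HP 0) = {w : ℂ | w.re < Real.log 1} := by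
      ext w
      simp [HP]
    rw [e]
    exact h
  set S : Set ℝ := {t | ¬ Slit b g ψ t y} with hSdef
  have hSiff : ∀ t, t ∈ S ↔ ∃ e > (0 : ℝ), ∃ χ : ℂ → ℂ, IsNat b g χ (ENA_D y e t) ∧
      EqOn χ (hat ψ) (HP 0) := by
    intro t
    simp only [hSdef, mem_ofPred_eq, Slit, not_not]
    rfl
  have hdown : ∀ t ∈ S, ∀ t' ≤ t, t' ∈ S := by
    intro t ht t' htt'
    rw [hSiff] at ht ⊢
    obtain ⟨e, he, χ, h1, h2⟩ := ht
    refine ⟨e, he, χ, ENA_mono h1 ?_, h2⟩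
    rintro w (hw | hw)
    · exact Or.inl hw
    · exact Or.inr ⟨hw.1, by linarith [hw.2]⟩
  have hneg : ∀ t < 0, t ∈ S := by
    intro t ht
    rw [hSiff]
    refine ⟨-t, by linarith, hat ψ, ENA_mono hnat ?_, fun _ _ => rfl⟩
    rintro w (hw | hw)
    · exact hw
    · change w.re < -0
      have := hw.2
      linarith
  have hdS : d ∉ S := by
    simp only [hSdef, mem_ofPred_eq, not_not]
    exact hS
  have hub : ∀ t ∈ S, t ≤ d := by
    intro t ht
    by_contra h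
    push Not at h
    exact hdS (hdown t ht d h.le)
  have hbdd : BddAbove S := ⟨d, fun t ht => hub t ht⟩
  have hne : S.Nonempty := ⟨-1, hneg _ (by norm_num)⟩
  set T := sSup S with hT
  have hT0 : 0 ≤ T := by
    by_contra h
    push Not at h
    have h1 := le_csSup hbdd (hneg (T / 2) (by linarith))
    rw [← hT] at h1
    linarith
  have hTd : T ≤ d := csSup_le hne hub
  have hTS : T ∉ S := by
    intro h
    rw [hSiff] at h
    obtain ⟨e, he, χ, h1, h2⟩ := h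
    have h3 : T + e / 2 ∈ S := by
      rw [hSiff]
      refine ⟨e / 2, by positivity, χ, ENA_mono h1 ?_, h2⟩
      rintro w (hw | hw)
      · exact Or.inl hw
      · exact Or.inr ⟨hw.1.trans (by linarith), by linarith [hw.2]⟩
    have h4 := le_csSup hbdd h3
    rw [← hT] at h4
    linarith
  have hlt : ∀ t < T, t ∈ S := by
    intro t ht
    obtain ⟨s, hs, hts⟩ := exists_lt_of_lt_csSup hne ht
    exact hdown s hs t hts.le
  refine ⟨T, hT0, hTd, ?_, ?_⟩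
  · by_contra h
    exact hTS h
  have hch : ∀ t : {t : ℝ // t < T}, ∃ e > (0 : ℝ), ∃ χ : ℂ → ℂ, IsNat b g χ (ENA_D y e t.1) ∧
      EqOn χ (hat ψ) (HP 0) := fun t => (hSiff t.1).mp (hlt t.1 t.2)
  choose e he χ hχ1 hχ2 using hch
  classical
  set Ω : Set ℂ := ⋃ t : {t : ℝ // t < T}, ENA_D y (e t) t.1 with hΩ
  set X : ℂ → ℂ := fun w => if h : ∃ t : {t : ℝ // t < T}, w ∈ ENA_D y (e t) t.1
    then χ h.choose w else 0 with hX
  have hXeq : ∀ t : {t : ℝ // t < T}, ∀ w ∈ ENA_D y (e t) t.1, X w = χ t w := by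
    intro t w hw
    have h : ∃ t : {t : ℝ // t < T}, w ∈ ENA_D y (e t) t.1 := ⟨t, hw⟩
    simp only [hX, h, dif_pos]
    exact ENA_agree (hχ1 _).diff (hχ1 _).diff (hχ2 _) (hχ2 _) h.choose_spec hw
  have t₀ : {t : ℝ // t < T} := ⟨T - 1, by linarith⟩
  refine ⟨X, Ω, ?_, ?_, ?_, ?_, ?_, ?_⟩
  · exact isOpen_iUnion fun t => ENA_D_open y (e t) t.1
  · intro w hw
    exact mem_iUnion.mpr ⟨t₀, Or.inl hw⟩
  · intro w hw s hs
    obtain ⟨t, ht⟩ := mem_iUnion.mp hw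
    exact mem_iUnion.mpr ⟨t, ENA_D_left ht hs⟩
  · intro t ht
    refine mem_iUnion.mpr ⟨⟨t, ht⟩, Or.inr ⟨?_, ?_⟩⟩
    · simpa using he ⟨t, ht⟩
    · simpa using he ⟨t, ht⟩
  · have hev : ∀ w ∈ Ω, ∃ t : {t : ℝ // t < T}, w ∈ ENA_D y (e t) t.1 ∧ X =ᶠ[𝓝 w] χ t := by
      intro w hw
      obtain ⟨t, ht⟩ := mem_iUnion.mp hw
      refine ⟨t, ht, ?_⟩
      filter_upwards [(ENA_D_open y (e t) t.1).mem_nhds ht] with z hz
      exact hXeq t z hz
    refine ⟨?_, ?_, ?_⟩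
    · intro w hw
      obtain ⟨t, ht, h1⟩ := hev w hw
      have h2 : DifferentiableAt ℂ (χ t) w :=
        (hχ1 t).diff.differentiableAt ((ENA_D_open y (e t) t.1).mem_nhds ht)
      exact (h2.congr_of_eventuallyEq h1).differentiableWithinAt
    · intro w hw j
      obtain ⟨t, ht, h1⟩ := hev w hw
      rw [h1.eq_of_nhds]
      exact (hχ1 t).av w ht j
    · intro w hw
      obtain ⟨t, ht, h1⟩ := hev w hw
      rw [h1.eq_of_nhds, h1.deriv_eq]
      exact (hχ1 t).eq w ht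
  · intro w hw
    rw [hXeq t₀ w (Or.inl hw)]
    exact hχ2 t₀ hw

end MPS
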