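import Pool.Agent.helper36.MP.SpecP

set_option autoImplicit false

open Complex Metric Set Filter Topology MeasureTheory

noncomputable section

namespace MPS

lemma MU1_per {k : ℕ} [NeZero k] (n : ℕ) (c : ℂ) (b g : ZMod k → ℂ) (G : ℕ → ℂ → ℂ) (q : ℕ) :
    Function.Periodic (lev n c b g (GW G) q) (2 * Real.pi * I) := by
  intro w
  have h1 : ∀ q, ∀ w, GW G q (w + 2 * Real.pi * I) = GW G q w := by
    intro q w
    simp only [GW]
    rw [Complex.exp_periodic]
  have h2 : ∀ q, ∀ w, deriv (GW G q) (w + 2 * Real.pi * I) = deriv (GW G q) w := by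
    intro q w
    rw [← deriv_comp_add_const]
    congr 1
    funext x
    exact h1 q x
  simp only [lev, bet, eef, h1, h2]

lemma MU1_line (a : ℝ) : volume {w : ℂ | w.im = a} = 0 := by
  have h : {w : ℂ | w.im = a} = Complex.measurableEquivRealProd ⁻¹' (univ ×ˢ {a}) := by
    ext w
    simp [Complex.measurableEquivRealProd_apply]
  rw [h, Complex.volume_preserving_equiv_real_prod.measure_preimage_equiv]
  rw [Measure.volume_eq_prod, Measure.prod_prod]
  simp

lemma MU1_shift (f : ℂ → ENNReal) (a : ℂ) (hf : ∀ w, f (w + a) = f w) (T : Set ℂ)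
    (hT : MeasurableSet T) : ∫⁻ w in {w | w - a ∈ T}, f w = ∫⁻ w in T, f w := by
  have hT' : MeasurableSet {w | w - a ∈ T} := (measurable_sub_const a) hT
  rw [← lintegral_indicator hT', ← lintegral_indicator hT]
  rw [← lintegral_add_right_eq_self _ a]
  congr 1
  funext w
  by_cases hw : w ∈ T
  · rw [indicator_of_mem hw, indicator_of_mem (by simpa using hw), hf]
  · rw [indicator_of_notMem hw, indicator_of_notMem (by simpa using hw)]

lemma MU1_three (f : ℂ → ENNReal) (hf : Function.Periodic f (2 * Real.pi * I)) (α : ℝ) :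
    ∫⁻ w in {w : ℂ | w.re < α ∧ -(2 * Real.pi) < w.im ∧ w.im < 4 * Real.pi}, f w ≤
      3 * ∫⁻ w in {w : ℂ | w.re < α ∧ 0 < w.im ∧ w.im < 2 * Real.pi}, f w := by
  set T : Set ℂ := {w : ℂ | w.re < α ∧ 0 < w.im ∧ w.im < 2 * Real.pi} with hT
  have hTm : MeasurableSet T := by
    apply IsOpen.measurableSet
    have h1 : IsOpen {w : ℂ | w.re < α} := isOpen_lt Complex.continuous_re continuous_const
    have h2 : IsOpen {w : ℂ | 0 < w.im} := isOpen_lt continuous_const Complex.continuous_im
    have h3 : IsOpen {w : ℂ | w.im < 2 * Real.pi} :=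
      isOpen_lt Complex.continuous_im continuous_const
    exact h1.inter (h2.inter h3)
  have hsub : {w : ℂ | w.re < α ∧ -(2 * Real.pi) < w.im ∧ w.im < 4 * Real.pi} ⊆
      (T ∪ ({w | w - (2 * Real.pi * I) ∈ T} ∪ {w | w - (-(2 * Real.pi * I)) ∈ T})) ∪
        ({w : ℂ | w.im = 0} ∪ {w : ℂ | w.im = 2 * Real.pi}) := by
    intro w hw
    simp only [mem_ofPred_eq] at hw
    by_cases h0 : w.im = 0
    · exact Or.inr (Or.inl h0)
    by_cases h1 : w.im = 2 * Real.pi
    · exact Or.inr (Or.inr h1)
    left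
    rcases lt_or_gt_of_ne h0 with h | h
    · right; right
      simp only [hT, mem_ofPred_eq, sub_neg_eq_add, add_re, add_im, mul_re, mul_im, I_re, I_im,
        ofReal_re, ofReal_im, re_ofNat, im_ofNat]
      refine ⟨by linarith [hw.1], by linarith [hw.2.1], by linarith⟩
    rcases lt_or_gt_of_ne h1 with h' | h'
    · left
      exact ⟨hw.1, h, h'⟩
    · right; left
      simp only [hT, mem_ofPred_eq, sub_re, sub_im, mul_re, mul_im, I_re, I_im,
        ofReal_re, ofReal_im, re_ofNat, im_ofNat]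
      refine ⟨by linarith [hw.1], by linarith, by linarith [hw.2.2]⟩
  have hs1 := MU1_shift f (2 * Real.pi * I) (fun w => hf w) T hTm
  have hs2 := MU1_shift f (-(2 * Real.pi * I)) (fun w => by
    have := hf (w + -(2 * Real.pi * I))
    rw [← this]; congr 1; ring) T hTm
  calc ∫⁻ w in {w : ℂ | w.re < α ∧ -(2 * Real.pi) < w.im ∧ w.im < 4 * Real.pi}, f w
      ≤ ∫⁻ w in (T ∪ ({w | w - (2 * Real.pi * I) ∈ T} ∪ {w | w - (-(2 * Real.pi * I)) ∈ T})) ∪
        ({w : ℂ | w.im = 0} ∪ {w : ℂ | w.im = 2 * Real.pi}), f w := lintegral_mono_set hsub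
    _ ≤ ((∫⁻ w in T, f w) + ((∫⁻ w in {w | w - (2 * Real.pi * I) ∈ T}, f w) +
        (∫⁻ w in {w | w - (-(2 * Real.pi * I)) ∈ T}, f w))) +
        ((∫⁻ w in {w : ℂ | w.im = 0}, f w) + (∫⁻ w in {w : ℂ | w.im = 2 * Real.pi}, f w)) := by
        refine (lintegral_union_le f _ _).trans (add_le_add ?_ (lintegral_union_le f _ _))
        refine (lintegral_union_le f _ _).trans (add_le_add le_rfl (lintegral_union_le f _ _))
    _ = 3 * ∫⁻ w in T, f w := by
        rw [hs1, hs2, setLIntegral_measure_zero _ _ (MU1_line 0),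
          setLIntegral_measure_zero _ _ (MU1_line _)]
        ring

lemma MU1_im (x : ℝ) : ((x : ℂ) * I).im = x := by simp

lemma MU1_re (x : ℝ) : ((x : ℂ) * I).re = 0 := by simp

theorem MU1 (hP1A : P1A_stmt) (hP1L : P1L_stmt) (hLEA : LEA_stmt) (hHSM : HSM_stmt) :
    MU1_stmt := by
  intro n k _ c b g ψ R ε δ A G Q H
  have hP := hP1L n k c b g ψ R ε δ A G Q H
  have hA := hP1A n k c b g ψ R ε δ A G Q H
  set f : ℕ → ℂ → ENNReal := fun q w => ENNReal.ofReal (lev n c b g (GW G) q w) with hf
  have hfper : ∀ q, Function.Periodic (f q) (2 * Real.pi * I) := by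
    intro q w
    simp only [hf]
    rw [MU1_per n c b g G q w]
  set S : ℕ → Set ℂ := fun q =>
    {w : ℂ | w.re < -A q ∧ -(2 * Real.pi) < w.im ∧ w.im < 4 * Real.pi} with hS
  set ν : Measure ℂ := ∑ q ∈ Finset.Icc 1 Q, (volume.restrict (S q)).withDensity (f q) with hν
  have hmeas : Measurable (fun w : ℂ => -w.re) := Complex.measurable_re.neg
  refine ⟨ν.map (fun w => -w.re), ?_, ?_⟩
  · rw [Measure.map_apply hmeas MeasurableSet.univ, preimage_univ, hν,
      Measure.finsetSum_apply]
    calc ∑ q ∈ Finset.Icc 1 Q, (volume.restrict (S q)).withDensity (f q) univ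
        = ∑ q ∈ Finset.Icc 1 Q, ∫⁻ w in S q, f q w := by
          refine Finset.sum_congr rfl fun q _ => ?_
          rw [withDensity_apply _ MeasurableSet.univ, Measure.restrict_univ]
      _ ≤ ∑ q ∈ Finset.Icc 1 Q, 3 * ∫⁻ w in
            {w : ℂ | w.re < -A q ∧ 0 < w.im ∧ w.im < 2 * Real.pi}, f q w :=
          Finset.sum_le_sum fun q _ => MU1_three (f q) (hfper q) _
      _ = 3 * ∑ q ∈ Finset.Icc 1 Q, ∫⁻ w in
            {w : ℂ | w.re < -A q ∧ 0 < w.im ∧ w.im < 2 * Real.pi}, f q w := by
          rw [Finset.mul_sum]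
      _ ≤ 3 * ENNReal.ofReal ε := mul_le_mul_right hP _
      _ = ENNReal.ofReal (3 * ε) := by
          rw [ENNReal.ofReal_mul (by norm_num : (0:ℝ) ≤ 3)]
          simp
  · intro p hp1 hpQ s t w hs ht0 ht1 hw
    have hmono : ∀ m, m ≤ p → A m ≤ A p := by
      intro m hm
      have : ∀ d, m + d ≤ p → A m ≤ A (m + d) := by
        intro d
        induction d with
        | zero => intro _; exact le_rfl
        | succ d ih =>
          intro hd
          exact (ih (by omega)).trans (H.sys.mono (m + d) (by omega))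
      have h := this (p - m) (by omega)
      rwa [Nat.add_sub_cancel' hm] at h
    -- shift
    obtain ⟨m, hm0, hm1⟩ : ∃ m : ℤ, 0 ≤ (w + m * (2 * Real.pi * I)).im ∧
        (w + m * (2 * Real.pi * I)).im < 2 * Real.pi := by
      refine ⟨-⌊w.im / (2 * Real.pi)⌋, ?_⟩
      have him : (w + ((-⌊w.im / (2 * Real.pi)⌋ : ℤ) : ℂ) * (2 * Real.pi * I)).im =
          w.im - ⌊w.im / (2 * Real.pi)⌋ * (2 * Real.pi) := by
        have : (w + ((-⌊w.im / (2 * Real.pi)⌋ : ℤ) : ℂ) * (2 * Real.pi * I)) =
          w + ((((-⌊w.im / (2 * Real.pi)⌋ : ℤ) : ℝ) * (2 * Real.pi) : ℝ) : ℂ) * I := by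
          push_cast; ring
        rw [this, add_im, MU1_im]
        push_cast; ring
      rw [him]
      exact ⟨Int.sub_floor_div_mul_nonneg _ (by positivity),
        Int.sub_floor_div_mul_lt _ (by positivity)⟩
    have hre : (w + m * (2 * Real.pi * I)).re = w.re := by
      have : (w + (m : ℂ) * (2 * Real.pi * I)) = w + (((m : ℝ) * (2 * Real.pi) : ℝ) : ℂ) * I := by
        push_cast; ring
      rw [this, add_re, MU1_re, add_zero]
    set w' : ℂ := w + m * (2 * Real.pi * I) with hw'
    have hlev : ∀ q, lev n c b g (GW G) q w = lev n c b g (GW G) q w' := by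
      intro q
      exact ((MU1_per n c b g G q).int_mul m w).symm
    have hLS := hA.2.2.2.1 p hpQ
    have hopen : IsOpen (HP (A p)) := isOpen_lt Complex.continuous_re continuous_const
    have hL := hLEA n k c b g (GW G) (HP (A p)) p H.su.hn H.su.cyc hopen hLS
    have hball : ∀ z ∈ ball w' (t / 2), z ∈ HP (A p) ∧ -(2 * Real.pi) < z.im ∧
        z.im < 4 * Real.pi ∧ s + t / 2 < -z.re ∧ -z.re < s + 3 * t / 2 := by
      intro z hz
      rw [mem_ball, dist_eq_norm] at hz
      have h1 := (Complex.abs_re_le_norm (z - w')).trans_lt hz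
      have h2 := (Complex.abs_im_le_norm (z - w')).trans_lt hz
      rw [abs_lt, sub_re, hre, hw] at h1
      rw [abs_lt, sub_im] at h2
      have hpi := Real.pi_gt_three
      refine ⟨?_, by linarith [h2.1], by linarith [h2.2], by linarith [h1.2], by linarith [h1.1]⟩
      change z.re < -A p
      linarith [h1.2]
    have hsubHP : ball w' (t / 2) ⊆ HP (A p) := fun z hz => (hball z hz).1
    -- the family
    set hh : ℕ × ℕ → ℂ → ℂ := fun i => if i.2 = 0 then eef n c b g (GW G) (i.1 - 1)
      else bet n b g (GW G) i.1 i.2 with hhdef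
    have hsum : ∀ z, ∑ i ∈ Finset.Icc 1 p ×ˢ Finset.range n, ‖hh i z‖ =
        ∑ q ∈ Finset.Icc 1 p, lev n c b g (GW G) q z := by
      intro z
      rw [Finset.sum_product]
      refine Finset.sum_congr rfl fun q _ => ?_
      have hn0 : 0 < n := by have := H.su.hn; omega
      rw [Finset.range_eq_Ico, Finset.sum_eq_sum_Ico_succ_bot hn0]
      rw [lev, add_comm]
      congr 1
      refine Finset.sum_congr rfl fun j hj => ?_
      have hj0 : j ≠ 0 := by
        have := (Finset.mem_Ico.mp hj).1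
        omega
      simp only [hhdef, hj0, if_false]
    have hdiff : ∀ i ∈ Finset.Icc 1 p ×ˢ Finset.range n, DifferentiableOn ℂ (hh i)
        (HP (A p)) := by
      intro i hi
      rw [Finset.mem_product, Finset.mem_Icc] at hi
      by_cases h0 : i.2 = 0
      · have := hL.2.2.2.2.2 (i.1 - 1) (by omega)
        simp only [hhdef, h0, if_true]
        exact this
      · have := hL.2.2.2.2.1 (i.1 - 1) (by omega) i.2
        rw [Nat.sub_add_cancel hi.1.1] at this
        simp only [hhdef, h0, if_false]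
        exact this
    have hkey := hHSM (ℕ × ℕ) (Finset.Icc 1 p ×ˢ Finset.range n) hh w' (t / 2) (by positivity)
      (fun i hi => (hdiff i hi).mono hsubHP)
    simp only [hsum] at hkey
    have hlevnn : ∀ q z, 0 ≤ lev n c b g (GW G) q z := by
      intro q z
      unfold lev
      positivity
    have hcont : ∀ q ∈ Finset.Icc 1 p, ContinuousOn (lev n c b g (GW G) q) (HP (A p)) := by
      intro q hq
      rw [Finset.mem_Icc] at hq
      have e1 : lev n c b g (GW G) q = fun z => (∑ j ∈ Finset.Ico 1 n,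
        ‖bet n b g (GW G) q j z‖) + ‖eef n c b g (GW G) (q - 1) z‖ := rfl
      rw [e1]
      refine ContinuousOn.add (continuousOn_finsetSum _ fun j _ => ?_) ?_
      · have := hL.2.2.2.2.1 (q - 1) (by omega) j
        rw [Nat.sub_add_cancel hq.1] at this
        exact this.continuousOn.norm
      · exact (hL.2.2.2.2.2 (q - 1) (by omega)).continuousOn.norm
    have hint : ∫⁻ z in ball w' (t / 2), ENNReal.ofReal (∑ q ∈ Finset.Icc 1 p,
        lev n c b g (GW G) q z) = ∑ q ∈ Finset.Icc 1 p, ∫⁻ z in ball w' (t / 2), f q z := by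
      rw [← lintegral_finsetSum']
      · refine lintegral_congr fun z => ?_
        rw [ENNReal.ofReal_sum_of_nonneg (fun q _ => hlevnn q z)]
      · intro q hq
        exact ((hcont q hq).mono hsubHP).aemeasurable measurableSet_ball |>.ennreal_ofReal
    have hpre : (ν.map (fun w : ℂ => -w.re)) (Ioo (s + t / 2) (s + 3 * t / 2)) =
        ∑ q ∈ Finset.Icc 1 Q, ∫⁻ z in (fun w : ℂ => -w.re) ⁻¹' (Ioo (s + t / 2) (s + 3 * t / 2)) ∩
          S q, f q z := by
      rw [Measure.map_apply hmeas measurableSet_Ioo, hν, Measure.finsetSum_apply]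
      refine Finset.sum_congr rfl fun q _ => ?_
      rw [withDensity_apply _ (hmeas measurableSet_Ioo), Measure.restrict_restrict
        (hmeas measurableSet_Ioo)]
    have hle : ENNReal.ofReal (Real.pi * (t / 2) ^ 2 * ∑ q ∈ Finset.Icc 1 p,
        lev n c b g (GW G) q w') ≤ (ν.map (fun w : ℂ => -w.re)) (Ioo (s + t / 2) (s + 3 * t / 2)) := by
      refine hkey.trans ?_
      rw [hint, hpre]
      calc ∑ q ∈ Finset.Icc 1 p, ∫⁻ z in ball w' (t / 2), f q z
          ≤ ∑ q ∈ Finset.Icc 1 p, ∫⁻ z in (fun w : ℂ => -w.re) ⁻¹'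
            (Ioo (s + t / 2) (s + 3 * t / 2)) ∩ S q, f q z := by
            refine Finset.sum_le_sum fun q hq => lintegral_mono_set ?_
            intro z hz
            have h1 := hball z hz
            refine ⟨⟨h1.2.2.2.1, h1.2.2.2.2⟩, ?_, h1.2.1, h1.2.2.1⟩
            have h2 : z.re < -A p := h1.1
            have h3 := hmono q (Finset.mem_Icc.mp hq).2
            linarith
        _ ≤ _ := by
            refine Finset.sum_le_sum_of_subset ?_
            exact Finset.Icc_subset_Icc le_rfl hpQ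
    calc ENNReal.ofReal (∑ q ∈ Finset.Icc 1 p, lev n c b g (GW G) q w)
        = ENNReal.ofReal (∑ q ∈ Finset.Icc 1 p, lev n c b g (GW G) q w') := by
          congr 1
          exact Finset.sum_congr rfl fun q _ => hlev q
      _ = ENNReal.ofReal (4 / (Real.pi * t ^ 2)) * ENNReal.ofReal (Real.pi * (t / 2) ^ 2 *
            ∑ q ∈ Finset.Icc 1 p, lev n c b g (GW G) q w') := by
          rw [← ENNReal.ofReal_mul (by positivity)]
          congr 1
          have hpi := Real.pi_ne_zero
          field_simp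
          ring
      _ ≤ _ := mul_le_mul_right hle _

end MPS
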