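import Pool.Agent.helper36.MP.SpecQ

set_option autoImplicit false

open Complex Metric Set Filter Topology MeasureTheory

noncomputable section

namespace MPS

theorem P2H (hNFI : NFI_stmt) (hPT1 : PT1_stmt) : P2H_stmt := by
  intro n k _ c b g ψ R ε y ρ₁ χ G1 ps H
  have hr0 := H.r0
  have hr1 := H.r1
  have hH : ∀ Q ≤ k, H1 n k c b g ψ R ε (ρ₁ / 64) (fun _ => 3 * (ρ₁ / 64)) G1 Q := by
    intro Q hQ
    refine ⟨H.su, by positivity, by linarith, H.mp0, ?_, hQ⟩
    have h := H.s1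
    exact ⟨h.a0, fun _ _ => le_rfl, h.g0, fun q h1 h2 => h.diff q h1 (h2.trans hQ),
      fun q h1 => h.rel q (h1.trans_le hQ), fun q h1 => h.val q (h1.trans hQ),
      fun q h1 h2 => h.disj q h1 (h2.trans_le hQ)⟩
  have hk := H.su.hk
  have hε : 0 ≤ ε := by
    refine le_trans ?_ H.su.hE
    have h1 : 0 ≤ ∫ z in ball (0 : ℂ) R, ‖er n c b g z‖ :=
      integral_nonneg fun z => norm_nonneg _
    have h2 : 0 ≤ Real.log ‖rho n b‖ := Real.log_nonneg H.su.rho1.le
    have h3 := Real.pi_pos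
    positivity
  refine ⟨hH, ?_, ?_, ?_⟩
  · have h1 := hPT1 n k c b g ψ R ε (ρ₁ / 64) (fun _ => 3 * (ρ₁ / 64)) G1 k (hH k le_rfl) k
      (by omega) le_rfl ((y : ℂ) * I - ρ₁ / 4) (13 * ρ₁ / 64) (by positivity) (by
        have e1 : ((y : ℂ) * I - ρ₁ / 4) = (y : ℂ) * I - ((ρ₁ / 4 : ℝ) : ℂ) := by push_cast; ring
        rw [e1, sub_re, ofReal_re]
        simp
        ring)
    refine (h1.1 (by linarith)).trans ?_
    rw [div_le_div_iff₀ (by positivity) (by positivity)]
    have h2 : 0 ≤ ε * ρ₁ ^ 2 := by positivity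
    nlinarith [h2]
  · have h1 := hNFI k b g 0 (ψ 0) χ y (16 * ρ₁) (H.su.mx 0).pn (by positivity) hr1 H.nat H.ext
    exact h1.mono (ball_subset_ball (by linarith))
  · intro q hq w hw h
    have hw' : Complex.exp w ∈ ball (0 : ℂ) (Real.exp (-(3 * (ρ₁ / 64)))) := by
      rw [mem_ball_zero_iff, Complex.norm_exp]
      exact Real.exp_lt_exp.mpr hw
    have h1 := H.s1.rel q hq (Complex.exp w) hw'
    have h2 : G1 (q + 1) (Complex.exp w) ^ n = 0 := by
      have h3 : G1 q (Complex.exp w) = c := h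
      have h4 := h1.1
      rw [h3] at h4
      linear_combination h4
    exact h1.2 (pow_eq_zero_iff (by have := H.su.hn; omega) |>.mp h2)

end MPS
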